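import Pool.Agent.W_MP_b13100_lc.Encode

/-!
# The integrability problem for finite presentations is undecidable

`Pres` is the type of codes of finite presentations, `Grp P` the group presented by `P` and
`Integrable G` says that `G` is isomorphic to the derived subgroup of some group. There is no
algorithm which decides, given a finite presentation (even with fixed numbers of generators and
relators), whether the presented group is integrable.

The proof formalizes a Novikov–Boone theorem (`novikov_boone`), an Adian–Rabin construction
(`rab`) giving perfect groups `A` for which triviality is undecidable, and the gadget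
`J(A) = (A × A) ⋊ Q₈`, which is integrable exactly if `A` is trivial.
-/

namespace Pool.Agent.Results.MP_b13100_lc.IntegrabilityUndecidable

open Pool.Agent.W_MP_b13100_lc

universe u

/-- There are `n` and `k` such that no computable function decides, for the presentations with
`n` generators and `k` relators, whether the presented group is integrable. -/
theorem result : ∃ n k : ℕ, ¬ ∃ f : Pres → Bool, Computable f ∧
    ∀ P : Pres, Valid P → P.1 = n → P.2.length = k → (f P = true ↔ Integrable.{u} (Grp P)) := by
  obtain ⟨n, k, F, hF, h⟩ := exists_reduction.{u}
  refine ⟨n, k, ?_⟩
  rintro ⟨f, hf, hf'⟩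
  apply ComputablePred.halting_problem 0
  refine ⟨fun c => Classical.propDecidable _, ?_⟩
  have h1 : Computable (fun c : Nat.Partrec.Code => f (F (Encodable.encode c))) :=
    hf.comp (hF.comp Computable.encode)
  refine h1.of_eq fun c => ?_
  obtain ⟨h2, h3, h4, h5⟩ := h (Encodable.encode c)
  have h6 := (hf' _ h2 h3 h4).trans h5
  rw [Hl, Denumerable.ofNat_encode] at h6
  exact Bool.eq_iff_iff.2 (h6.trans (@decide_eq_true_iff _ (_)).symm)

end Pool.Agent.Results.MP_b13100_lc.IntegrabilityUndecidable
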